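import Pool.Agent.Helper31K9.SR.St

set_option autoImplicit false

namespace Pool.Agent.Helper86K9.SR

open Finset MeasureTheory Filter Topology
open Pool.Agent.H189R2.Iid (LN)
open Pool.Agent.Results.MP_a08d0a_co.IidLevel (psi sl ic)
open Pool.Agent.Helper31K9.SR
open scoped ENNReal

theorem lsc_enn {X : Type*} [TopologicalSpace X] {f : X → ℕ∞} (hf : LowerSemicontinuous f) :
    LowerSemicontinuous (fun x => (f x : ℝ≥0∞)) := by
  intro x y hy
  by_cases hx : f x = ⊤
  · have hy' : y < ⊤ := by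
      simp only [hx, ENat.toENNReal_top] at hy
      exact hy
    obtain ⟨N, hN⟩ := ENNReal.exists_nat_gt hy'.ne
    have h1 : (N : ℕ∞) < f x := by
      rw [hx]
      exact ENat.natCast_lt_top N
    filter_upwards [hf x _ h1] with z hz
    refine hN.trans ?_
    have h2 : ((N : ℕ∞) : ℝ≥0∞) < (f z : ℝ≥0∞) := ENat.toENNReal_lt.2 hz
    simpa using h2
  · obtain ⟨m, hm⟩ := ENat.ne_top_iff_exists.1 hx
    rcases Nat.eq_zero_or_pos m with h0 | h0
    · simp only [← hm, h0] at hy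
      simp at hy
    · have h1 : ((m - 1 : ℕ) : ℕ∞) < f x := by
        rw [← hm]
        exact_mod_cast Nat.sub_lt h0 one_pos
      filter_upwards [hf x _ h1] with z hz
      refine lt_of_lt_of_le hy ?_
      simp only [← hm]
      refine ENat.toENNReal_le.2 ?_
      have h2 : ((m - 1 : ℕ) : ℕ∞) + 1 ≤ f z := Order.add_one_le_of_lt hz
      have h3 : ((m - 1 : ℕ) : ℕ∞) + 1 = (m : ℕ∞) := by
        have : m - 1 + 1 = m := by omega
        exact_mod_cast this
      rwa [h3] at h2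

/-- the uniform law in the unit ball -/
noncomputable def lam : Measure (ℝ × ℝ) :=
  ProbabilityTheory.cond volume (Metric.ball (0 : ℝ × ℝ) 1)

theorem lam_prob : IsProbabilityMeasure lam :=
  ProbabilityTheory.cond_isProbabilityMeasure_of_finite
    (Metric.measure_ball_pos volume 0 one_pos).ne' measure_ball_lt_top.ne

theorem lam_LN : LN lam := by
  intro a b c hab
  rw [lam, ProbabilityTheory.cond_apply measurableSet_ball]
  have : (volume : Measure (ℝ × ℝ)) (Metric.ball 0 1 ∩ {y | a * y.1 + b * y.2 = c}) = 0 :=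
    measure_mono_null Set.inter_subset_right (Pool.Agent.Y344.KD.volume_line a b c hab)
  rw [this, mul_zero]

/-- the smoothing map -/
noncomputable def shf (m : ℕ) (z : (ℝ × ℝ) × (ℝ × ℝ)) : ℝ × ℝ :=
  (z.1.1 + (1 / ((m : ℝ) + 1)) * z.2.1, z.1.2 + (1 / ((m : ℝ) + 1)) * z.2.2)

theorem shf_meas (m : ℕ) : Measurable (shf m) := by
  unfold shf
  fun_prop

/-- the smoothed law -/
noncomputable def sm (m : ℕ) (μ : Measure (ℝ × ℝ)) : Measure (ℝ × ℝ) :=
  (μ.prod lam).map (shf m)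

theorem sm_prob (m : ℕ) (μ : Measure (ℝ × ℝ)) [IsProbabilityMeasure μ] :
    IsProbabilityMeasure (sm m μ) := by
  have := lam_prob
  exact Measure.isProbabilityMeasure_map (shf_meas m).aemeasurable

theorem sm_LN (m : ℕ) (μ : Measure (ℝ × ℝ)) [IsProbabilityMeasure μ] : LN (sm m μ) := by
  have := lam_prob
  intro a b c hab
  have hs : MeasurableSet {y : ℝ × ℝ | a * y.1 + b * y.2 = c} :=
    measurableSet_eq_fun ((measurable_fst.const_mul a).add (measurable_snd.const_mul b))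
      measurable_const
  rw [sm, Measure.map_apply (shf_meas m) hs, Measure.measure_prod_null ((shf_meas m) hs)]
  refine Eventually.of_forall fun x => ?_
  have h0 : (0 : ℝ) < 1 / ((m : ℝ) + 1) := by positivity
  set s : ℝ := 1 / ((m : ℝ) + 1) with hs'
  have h1 : Prod.mk x ⁻¹' (shf m ⁻¹' {y : ℝ × ℝ | a * y.1 + b * y.2 = c}) =
      {u : ℝ × ℝ | (a * s) * u.1 + (b * s) * u.2 = c - a * x.1 - b * x.2} := by
    ext u
    simp only [Set.mem_preimage, shf, Set.mem_ofPred_eq]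
    constructor <;> intro h <;> linarith
  show lam (Prod.mk x ⁻¹' (shf m ⁻¹' {y : ℝ × ℝ | a * y.1 + b * y.2 = c})) = 0
  rw [h1]
  refine lam_LN _ _ _ ?_
  rcases hab with h | h
  · exact Or.inl (mul_ne_zero h h0.ne')
  · exact Or.inr (mul_ne_zero h h0.ne')

theorem mix_prob {n : ℕ} {δ : ℝ} (h0 : 0 < δ) (h1 : δ ≤ 1) (ν : Fin n → Measure (ℝ × ℝ))
    (μ₀ : Measure (ℝ × ℝ)) [∀ l, IsProbabilityMeasure (ν l)] [IsProbabilityMeasure μ₀] (l : Fin n) :
    IsProbabilityMeasure (mix δ ν μ₀ l) := by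
  constructor
  rw [mix, Measure.add_apply, Measure.smul_apply, Measure.smul_apply, measure_univ, measure_univ,
    smul_eq_mul, smul_eq_mul, mul_one, mul_one, ← ENNReal.ofReal_add (by linarith) h0.le]
  simp

theorem sm_mix {n : ℕ} (m : ℕ) (δ : ℝ) (ν : Fin n → Measure (ℝ × ℝ)) (μ₀ : Measure (ℝ × ℝ))
    [∀ l, IsProbabilityMeasure (ν l)] [IsProbabilityMeasure μ₀] (l : Fin n) :
    sm m (mix δ ν μ₀ l) = mix δ (fun l => sm m (ν l)) (sm m μ₀) l := by
  have := lam_prob
  rw [sm, mix, Measure.add_prod, Measure.prod_smul_left, Measure.prod_smul_left,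
    Measure.map_add _ _ (shf_meas m), Measure.map_smul, Measure.map_smul]
  rfl

theorem shf_tendsto (z : (ℝ × ℝ) × (ℝ × ℝ)) : Tendsto (fun m => shf m z) atTop (𝓝 z.1) := by
  have h1 : Tendsto (fun m : ℕ => 1 / ((m : ℝ) + 1)) atTop (𝓝 0) :=
    tendsto_one_div_add_atTop_nhds_zero_nat
  have h2 : Tendsto (fun m : ℕ => z.1.1 + 1 / ((m : ℝ) + 1) * z.2.1) atTop
      (𝓝 (z.1.1 + 0 * z.2.1)) := tendsto_const_nhds.add (h1.mul_const _)
  have h3 : Tendsto (fun m : ℕ => z.1.2 + 1 / ((m : ℝ) + 1) * z.2.2) atTop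
      (𝓝 (z.1.2 + 0 * z.2.2)) := tendsto_const_nhds.add (h1.mul_const _)
  rw [zero_mul, add_zero] at h2 h3
  exact h2.prodMk_nhds h3

theorem lim (hL : S_LSC) (hC : S_CON) : S_TWO := by
  obtain ⟨C, hC0, hC⟩ := hC
  refine ⟨C, hC0, ?_⟩
  intro n ν μ₀ δ hν hμ hδ0 hδ1 k hk
  have hlp := lam_prob
  set f : (Fin n → ℝ × ℝ) → ℝ≥0∞ := fun P => (psi (sl P) (ic P) k : ℝ≥0∞) with hf
  have hfl : LowerSemicontinuous f := lsc_enn (hL n k hk)
  have hfm : Measurable f := hfl.measurable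
  refine ⟨hfm, ?_⟩
  have hmp : ∀ l, IsProbabilityMeasure (mix δ ν μ₀ l) := mix_prob hδ0 hδ1 ν μ₀
  set Ω := Fin n → (ℝ × ℝ) × (ℝ × ℝ) with hΩ
  set Q : Measure Ω := Measure.pi (fun l => (mix δ ν μ₀ l).prod lam) with hQ
  have hfst : MeasurePreserving (fun (ω : Ω) l => (ω l).1) Q (Measure.pi (mix δ ν μ₀)) := by
    have h1 := measurePreserving_pi (fun l : Fin n => (mix δ ν μ₀ l).prod lam) (mix δ ν μ₀)
      (f := fun _ (z : (ℝ × ℝ) × (ℝ × ℝ)) => z.1) (fun l => measurePreserving_fst)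
    exact h1
  have hsm : ∀ m, MeasurePreserving (fun (ω : Ω) l => shf m (ω l)) Q
      (Measure.pi (mix δ (fun l => sm m (ν l)) (sm m μ₀))) := by
    intro m
    have h1 : mix δ (fun l => sm m (ν l)) (sm m μ₀) = fun l => sm m (mix δ ν μ₀ l) := by
      funext l
      exact (sm_mix m δ ν μ₀ l).symm
    rw [h1]
    have : ∀ l, IsProbabilityMeasure (sm m (mix δ ν μ₀ l)) := fun l => sm_prob m _
    refine measurePreserving_pi _ _ (f := fun _ z => shf m z) fun l => ?_
    exact ⟨shf_meas m, rfl⟩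
  set b : ℝ≥0∞ := ENNReal.ofReal (C * n * (((min k (n - 1 - k) : ℕ) + 1 : ℝ) / δ) ^ (1 / 6 : ℝ))
    with hb
  have hbd : ∀ m, ∫⁻ ω, f (fun l => shf m (ω l)) ∂Q ≤ b := by
    intro m
    rw [(hsm m).lintegral_comp hfm]
    exact hC n (fun l => sm m (ν l)) (sm m μ₀) δ (fun l => sm_prob m _) (sm_prob m _)
      (fun l => sm_LN m _) (sm_LN m _) hδ0 hδ1 k hk
  calc ∫⁻ P, f P ∂Measure.pi (mix δ ν μ₀) = ∫⁻ ω, f (fun l => (ω l).1) ∂Q :=
        (hfst.lintegral_comp hfm).symm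
    _ ≤ ∫⁻ ω, liminf (fun m => f (fun l => shf m (ω l))) atTop ∂Q := by
        refine lintegral_mono fun ω => ?_
        have h1 : Tendsto (fun m (l : Fin n) => shf m (ω l)) atTop (𝓝 fun l => (ω l).1) :=
          tendsto_pi_nhds.2 fun l => shf_tendsto (ω l)
        have h2 : f (fun l => (ω l).1) ≤ liminf f (𝓝 fun l => (ω l).1) :=
          lowerSemicontinuousAt_iff_le_liminf.1 (hfl _)
        refine h2.trans ?_
        have h3 : liminf f (𝓝 fun l => (ω l).1) ≤
            liminf f (map (fun m (l : Fin n) => shf m (ω l)) atTop) :=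
          liminf_le_liminf_of_le h1
        exact h3
    _ ≤ liminf (fun m => ∫⁻ ω, f (fun l => shf m (ω l)) ∂Q) atTop :=
        lintegral_liminf_le fun m => hfm.comp (hsm m).measurable
    _ ≤ liminf (fun _ : ℕ => b) atTop := liminf_le_liminf (Eventually.of_forall hbd)
    _ = b := liminf_const b

end Pool.Agent.Helper86K9.SR
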