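import Pool.Agent.Helper31K9.SR.St3
import Pool.Agent.Helper86K9.SR.Lim

set_option autoImplicit false

namespace Pool.Agent.Helper86K9.SR

open Finset MeasureTheory Filter Topology
open Pool.Agent.Results.MP_a08d0a_co.IidLevel (psi sl ic)
open Pool.Agent.Helper31K9.SR
open scoped ENNReal

namespace FouL

/-- the uniform law in the unit interval -/
noncomputable def un : Measure ℝ := volume.restrict (Set.Icc 0 1)

theorem un_prob : IsProbabilityMeasure un := by
  constructor
  rw [un, Measure.restrict_apply_univ, Real.volume_Icc]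
  simp

/-- the slopes -/
noncomputable def shs (m : ℕ) (a : ℝ) (u : ℝ) : ℝ := a + (1 / ((m : ℝ) + 1)) * u

theorem shs_meas (m : ℕ) (a : ℝ) : Measurable (shs m a) := by
  unfold shs
  fun_prop

/-- the law of the slopes -/
noncomputable def tm (m : ℕ) (a : ℝ) : Measure ℝ := un.map (shs m a)

theorem tm_prob (m : ℕ) (a : ℝ) : IsProbabilityMeasure (tm m a) := by
  have := un_prob
  exact Measure.isProbabilityMeasure_map (shs_meas m a).aemeasurable

theorem tm_atom (m : ℕ) (a t : ℝ) : tm m a {t} = 0 := by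
  rw [tm, Measure.map_apply (shs_meas m a) (measurableSet_singleton t), un,
    Measure.restrict_apply ((shs_meas m a) (measurableSet_singleton t))]
  have h0 : (0 : ℝ) < 1 / ((m : ℝ) + 1) := by positivity
  refine measure_mono_null (t := {(t - a) / (1 / ((m : ℝ) + 1))}) ?_ (by simp)
  rintro u ⟨hu, -⟩
  have hu' : a + (1 / ((m : ℝ) + 1)) * u = t := hu
  rw [Set.mem_singleton_iff, eq_div_iff h0.ne']
  linarith

theorem tm_ae (m : ℕ) (a s A : ℝ) (h1 : s ≤ a) (h2 : a ≤ s + A) :
    ∀ᵐ t ∂tm m a, s ≤ t ∧ t ≤ s + (A + 1 / ((m : ℝ) + 1)) := by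
  have hms : MeasurableSet {t : ℝ | s ≤ t ∧ t ≤ s + (A + 1 / ((m : ℝ) + 1))} :=
    measurableSet_Icc
  rw [tm, ae_map_iff (shs_meas m a).aemeasurable hms, un]
  filter_upwards [ae_restrict_mem measurableSet_Icc] with u hu
  have h0 : (0 : ℝ) < 1 / ((m : ℝ) + 1) := by positivity
  have h3 : 0 ≤ (1 / ((m : ℝ) + 1)) * u := mul_nonneg h0.le hu.1
  have h4 : (1 / ((m : ℝ) + 1)) * u ≤ 1 / ((m : ℝ) + 1) := by
    have := mul_le_mul_of_nonneg_left hu.2 h0.le
    linarith
  unfold shs
  constructor <;> linarith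

/-- the smoothing map -/
noncomputable def shz {n : ℕ} (m : ℕ) (a : Fin n → ℝ) (l : Fin n) (z : ℝ × ℝ) : ℝ × ℝ :=
  (shs m (a l) z.1, z.2)

end FouL

open FouL

theorem fou (hL : S_LSI) (hS : S_SMO) : S_FOU := by
  obtain ⟨C, hC0, hC⟩ := hS
  refine ⟨C, hC0, ?_⟩
  intro n a ν A D c X hν hT hD hA hX ha k hk
  set f : (Fin n → ℝ × ℝ) → ℝ≥0∞ :=
    fun P => (psiOn (sl P) (ic P) k (Set.Ioo c (c + X)) : ℝ≥0∞) with hf
  have hfl : LowerSemicontinuous f := lsc_enn (hL n k hk c (c + X))
  have hfm : Measurable f := hfl.measurable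
  have hm : Measurable (fun (B : Fin n → ℝ) (l : Fin n) => (a l, B l)) :=
    measurable_pi_lambda _ fun l => measurable_const.prodMk (measurable_pi_apply l)
  have hfB : Measurable (fun B : Fin n → ℝ => f fun l => (a l, B l)) := hfm.comp hm
  refine ⟨hfB, ?_⟩
  have hup := un_prob
  have hne : (univ : Finset (Fin n)).Nonempty := ⟨⟨k, hk⟩, Finset.mem_univ _⟩
  set s : ℝ := univ.inf' hne a with hs
  have hs1 : ∀ l, s ≤ a l := fun l => Finset.inf'_le _ (Finset.mem_univ l)
  have hs2 : ∀ l, a l ≤ s + A := by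
    intro l
    obtain ⟨j, -, hj⟩ := Finset.exists_mem_eq_inf' hne a
    have := ha l j
    rw [hs, hj]
    linarith
  set Q : Measure (Fin n → ℝ × ℝ) := Measure.pi (fun l => un.prod (ν l)) with hQ
  have hsnd : MeasurePreserving (fun (ω : Fin n → ℝ × ℝ) l => (ω l).2) Q (Measure.pi ν) := by
    have h1 := measurePreserving_pi (fun l : Fin n => un.prod (ν l)) ν
      (f := fun _ (z : ℝ × ℝ) => z.2) (fun l => measurePreserving_snd)
    exact h1
  have hsm : ∀ m : ℕ, MeasurePreserving (fun (ω : Fin n → ℝ × ℝ) l => shz m a l (ω l)) Q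
      (Measure.pi (two (fun l => tm m (a l)) ν)) := by
    intro m
    have : ∀ l, IsProbabilityMeasure (two (fun l => tm m (a l)) ν l) := by
      intro l
      have := tm_prob m (a l)
      unfold two
      infer_instance
    refine measurePreserving_pi _ _ (f := fun l z => shz m a l z) fun l => ?_
    have h1 : MeasurePreserving (shs m (a l)) un (tm m (a l)) := ⟨shs_meas m (a l), rfl⟩
    have := tm_prob m (a l)
    exact h1.prod (MeasurePreserving.id (ν l))
  set b : ℝ → ℝ≥0∞ := fun A => ENNReal.ofReal (C * (n * ((k : ℝ) + 1) ^ (1 / 6 : ℝ) +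
        (n * ((k : ℝ) + 1) ^ (1 / 3 : ℝ)) ^ (6 / 7 : ℝ) * (A * D * X) ^ (1 / 7 : ℝ))) with hb
  have hbd : ∀ m : ℕ, ∫⁻ ω, f (fun l => shz m a l (ω l)) ∂Q ≤ b (A + 1 / ((m : ℝ) + 1)) := by
    intro m
    rw [(hsm m).lintegral_comp hfm]
    have h0 : (0 : ℝ) < 1 / ((m : ℝ) + 1) := by positivity
    exact hC n (fun l => tm m (a l)) ν s (A + 1 / ((m : ℝ) + 1)) D c X
      ⟨fun l => tm_prob m _, hν, fun l t => tm_atom m _ t,
        fun l => tm_ae m _ s A (hs1 l) (hs2 l), hT⟩ hD (by linarith) hX k hk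
  have hbc : Tendsto (fun m : ℕ => b (A + 1 / ((m : ℝ) + 1))) atTop (𝓝 (b A)) := by
    have h1 : Tendsto (fun m : ℕ => A + 1 / ((m : ℝ) + 1)) atTop (𝓝 (A + 0)) :=
      tendsto_const_nhds.add tendsto_one_div_add_atTop_nhds_zero_nat
    rw [add_zero] at h1
    refine ENNReal.tendsto_ofReal ?_
    refine Tendsto.const_mul C (Tendsto.const_add _ (Tendsto.const_mul _ ?_))
    exact ((h1.mul_const D).mul_const X).rpow_const (Or.inr (by norm_num))
  calc ∫⁻ B, f (fun l => (a l, B l)) ∂Measure.pi ν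
      = ∫⁻ ω, f (fun l => (a l, (ω l).2)) ∂Q := (hsnd.lintegral_comp hfB).symm
    _ ≤ ∫⁻ ω, liminf (fun m => f (fun l => shz m a l (ω l))) atTop ∂Q := by
        refine lintegral_mono fun ω => ?_
        have h1 : Tendsto (fun (m : ℕ) (l : Fin n) => shz m a l (ω l)) atTop
            (𝓝 fun l => (a l, (ω l).2)) := by
          refine tendsto_pi_nhds.2 fun l => ?_
          have h2 : Tendsto (fun m : ℕ => a l + 1 / ((m : ℝ) + 1) * (ω l).1) atTop
              (𝓝 (a l + 0 * (ω l).1)) :=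
            tendsto_const_nhds.add (tendsto_one_div_add_atTop_nhds_zero_nat.mul_const _)
          rw [zero_mul, add_zero] at h2
          exact h2.prodMk_nhds tendsto_const_nhds
        have h2 : f (fun l => (a l, (ω l).2)) ≤ liminf f (𝓝 fun l => (a l, (ω l).2)) :=
          lowerSemicontinuousAt_iff_le_liminf.1 (hfl _)
        refine h2.trans ?_
        have h3 : liminf f (𝓝 fun l => (a l, (ω l).2)) ≤
            liminf f (map (fun (m : ℕ) (l : Fin n) => shz m a l (ω l)) atTop) :=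
          liminf_le_liminf_of_le h1
        exact h3
    _ ≤ liminf (fun m => ∫⁻ ω, f (fun l => shz m a l (ω l)) ∂Q) atTop :=
        lintegral_liminf_le fun m => hfm.comp (hsm m).measurable
    _ ≤ liminf (fun m : ℕ => b (A + 1 / ((m : ℝ) + 1))) atTop :=
        liminf_le_liminf (Eventually.of_forall hbd)
    _ = b A := hbc.liminf_eq

end Pool.Agent.Helper86K9.SR
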