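import Pool.Agent.Helper31K9.SR.St

set_option autoImplicit false

namespace Pool.Agent.Helper86K9.SR

open Finset Pool.Agent.Helper31K9.SR

theorem hub : S_HUB := by
  intro n ν m δ hν hm0 hm1 hδ0 hδ1 p hp
  set s := ∑ l, ν l with hs
  have hs0 : 0 ≤ s := sum_nonneg fun l _ => (hν l).1
  have hsn : s ≤ n := by
    have h1 : s ≤ ∑ _l : Fin n, (1 : ℝ) := sum_le_sum fun l _ => (hν l).2
    simpa using h1
  have hF : ∑ l, p l = (1 - δ) * s + δ * m * n := by
    simp only [hp]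
    rw [sum_add_distrib, ← mul_sum]
    simp
    ring
  have hV : δ / 2 * ((n - s) * m + s * (1 - m)) ≤ ∑ l, p l * (1 - p l) := by
    have h1 : δ / 2 * ((n - s) * m + s * (1 - m)) =
        ∑ l : Fin n, δ / 2 * ((1 - ν l) * m + ν l * (1 - m)) := by
      rw [← mul_sum, sum_add_distrib, ← sum_mul, ← sum_mul, sum_sub_distrib]
      simp [hs]
    rw [h1]
    refine sum_le_sum fun l _ => ?_
    rw [hp l]
    obtain ⟨h2, h3⟩ := hν l
    set x := ν l
    -- p (1 - p) ≥ (1 - x) δm(1-δm) + x (1-δ+δm)(δ-δm)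
    have h4 : (1 - x) * (δ * m * (1 - δ * m)) + x * ((1 - δ + δ * m) * (δ * (1 - m))) ≤
        ((1 - δ) * x + δ * m) * (1 - ((1 - δ) * x + δ * m)) := by
      nlinarith [mul_nonneg (mul_nonneg h2 (sub_nonneg.2 h3)) (sq_nonneg (1 - δ))]
    have h5 : δ / 2 * m ≤ δ * m * (1 - δ * m) := by
      nlinarith [mul_nonneg hδ0.le hm0, mul_le_mul hδ1 hm1 hm0 (by norm_num)]
    have h6 : δ / 2 * (1 - m) ≤ (1 - δ + δ * m) * (δ * (1 - m)) := by
      nlinarith [mul_nonneg hδ0.le (sub_nonneg.2 hm1),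
        mul_nonneg hδ0.le hm0]
    nlinarith [mul_le_mul_of_nonneg_left h5 (sub_nonneg.2 h3), mul_le_mul_of_nonneg_left h6 h2]
  have hn : (0 : ℝ) ≤ n := Nat.cast_nonneg n
  set h := (n - s) * m + s * (1 - m) with hh
  have k1 : s * (n - s) ≤ n * h := by
    have e1 : n * h - s * (n - s) = (1 - m) * s ^ 2 + m * (n - s) ^ 2 := by
      rw [hh]
      ring
    have e2 : 0 ≤ (1 - m) * s ^ 2 + m * (n - s) ^ 2 := by
      have := sub_nonneg.2 hm1
      positivity
    linarith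
  have k2 : m * n * (n - m * n) ≤ n * h := by
    have e1 : n * h - m * n * (n - m * n) = n * (s * (1 - m) ^ 2 + m ^ 2 * (n - s)) := by
      rw [hh]
      ring
    have e2 : 0 ≤ n * (s * (1 - m) ^ 2 + m ^ 2 * (n - s)) := by
      have := sub_nonneg.2 hsn
      positivity
    linarith
  rw [hF]
  have k3 : ((1 - δ) * s + δ * m * n) * (n - ((1 - δ) * s + δ * m * n)) =
      (1 - δ) ^ 2 * (s * (n - s)) + δ ^ 2 * (m * n * (n - m * n)) + (1 - δ) * δ * (n * h) := by
    rw [hh]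
    ring
  have hh0 : 0 ≤ n * h := by
    rw [hh]
    have e1 := sub_nonneg.2 hsn
    have e2 := sub_nonneg.2 hm1
    positivity
  have k4 : ((1 - δ) * s + δ * m * n) * (n - ((1 - δ) * s + δ * m * n)) ≤ n * h := by
    rw [k3]
    have e1 := mul_le_mul_of_nonneg_left k1 (sq_nonneg (1 - δ))
    have e2 := mul_le_mul_of_nonneg_left k2 (sq_nonneg δ)
    nlinarith [mul_nonneg (mul_nonneg (by linarith : (0:ℝ) ≤ 1 - δ) hδ0.le) hh0]
  calc δ / 2 * (((1 - δ) * s + δ * m * n) * (n - ((1 - δ) * s + δ * m * n)))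
      ≤ δ / 2 * (n * h) := mul_le_mul_of_nonneg_left k4 (by positivity)
    _ = n * (δ / 2 * h) := by ring
    _ ≤ n * ∑ l, p l * (1 - p l) := mul_le_mul_of_nonneg_left hV hn

end Pool.Agent.Helper86K9.SR
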