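import Pool.Agent.Helper31K9.SR.St

set_option autoImplicit false

namespace Pool.Agent.Helper86K9.SR

open Finset MeasureTheory Filter Topology
open Pool.Agent.H189R2.Lev (ht cr)
open Pool.Agent.Results.MP_a08d0a_co.IidLevel (Simple level psi sl ic level_eq exists_level)
open Pool.Agent.Helper31K9.SR

theorem level_spec {n : ℕ} (a B : Fin n → ℝ) {k : ℕ} (hk : k < n) (x : ℝ) :
    ∃ i, level a B k x = ht a B i x ∧ {l | ht a B l x < level a B k x}.ncard ≤ k ∧
      k < {l | ht a B l x ≤ level a B k x}.ncard := by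
  obtain ⟨i, h1, h2⟩ := exists_level a B hk x
  have h3 : level a B k x = ht a B i x := level_eq h1 h2
  exact ⟨i, h3, by rw [h3]; exact h1, by rw [h3]; exact h2⟩

theorem level_le {n : ℕ} {a B a' B' : Fin n → ℝ} {k : ℕ} (hk : k < n) {x ε : ℝ}
    (h : ∀ l, ht a' B' l x ≤ ht a B l x + ε) : level a' B' k x ≤ level a B k x + ε := by
  obtain ⟨i, -, -, h1⟩ := level_spec a B hk x
  obtain ⟨j, -, h2, -⟩ := level_spec a' B' hk x
  by_contra hcon
  push Not at hcon
  have h3 : {l | ht a B l x ≤ level a B k x} ⊆ {l | ht a' B' l x < level a' B' k x} := by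
    intro l hl
    have h4 : ht a B l x ≤ level a B k x := hl
    have h5 := h l
    show ht a' B' l x < level a' B' k x
    linarith
  have h4 := Set.ncard_le_ncard h3 (Set.toFinite _)
  omega

theorem level_cont {n : ℕ} {k : ℕ} (hk : k < n) (x : ℝ) :
    Continuous (fun P : Fin n → ℝ × ℝ => level (sl P) (ic P) k x) := by
  rw [continuous_iff_continuousAt]
  intro P
  rw [Metric.continuousAt_iff']
  intro ε hε
  have h1 : ∀ l : Fin n, Continuous fun P : Fin n → ℝ × ℝ => ht (sl P) (ic P) l x := by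
    intro l
    unfold ht sl ic
    fun_prop
  have h2 : ∀ᶠ P' in 𝓝 P, ∀ l, |ht (sl P') (ic P') l x - ht (sl P) (ic P) l x| < ε / 2 := by
    rw [eventually_all]
    intro l
    have h3 : ContinuousAt (fun P : Fin n → ℝ × ℝ => ht (sl P) (ic P) l x) P :=
      (h1 l).continuousAt
    exact (Metric.continuousAt_iff'.1 h3) (ε / 2) (half_pos hε)
  filter_upwards [h2] with P' hP'
  rw [Real.dist_eq]
  have e1 := level_le (a := sl P) (B := ic P) (a' := sl P') (B' := ic P') hk (x := x) (ε := ε / 2)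
    (fun l => by have := (abs_lt.1 (hP' l)).2; linarith)
  have e2 := level_le (a := sl P') (B := ic P') (a' := sl P) (B' := ic P) hk (x := x) (ε := ε / 2)
    (fun l => by have := (abs_lt.1 (hP' l)).1; linarith)
  rw [abs_lt]
  constructor <;> linarith

/-- an affine function which follows the level at all points of an interval is one of the lines -/
theorem affine_line {n : ℕ} {a B : Fin n → ℝ} {k : ℕ} (hk : k < n) {x : ℝ} {U : Set ℝ}
    (hU : U ∈ 𝓝 x) {α β : ℝ} (h : ∀ z ∈ U, level a B k z = α * z + β) :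
    ∃ l, level a B k =ᶠ[𝓝 x] ht a B l := by
  classical
  obtain ⟨e, he, heU⟩ := Metric.mem_nhds_iff.1 hU
  -- two points with the same line
  choose i hi using fun z => (level_spec a B hk z)
  have hinf : (Metric.ball x e).Infinite := by
    rw [Real.ball_eq_Ioo]
    exact Set.Ioo_infinite (by linarith)
  obtain ⟨y, hy, z, hz, hne, hyz⟩ := Set.Infinite.exists_ne_map_eq_of_mapsTo hinf
    (fun z _ => Set.mem_univ (i z)) (Set.finite_univ)
  refine ⟨i y, ?_⟩
  have h1 := (hi y).1
  have h2 := (hi z).1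
  rw [← hyz] at h2
  rw [h y (heU hy)] at h1
  rw [h z (heU hz)] at h2
  unfold ht at h1 h2
  have h3 : a (i y) = α := by
    have h4 : (α - a (i y)) * (y - z) = 0 := by linarith
    rcases mul_eq_zero.1 h4 with h5 | h5
    · linarith
    · exact absurd (sub_eq_zero.1 h5) hne
  filter_upwards [hU] with w hw
  rw [h w hw]
  unfold ht
  rw [h3] at h1 ⊢
  linarith

/-- a function which locally follows one of the lines is affine on an interval -/
theorem locally_affine {n : ℕ} {a B : Fin n → ℝ} {f : ℝ → ℝ} {x e : ℝ}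
    (h : ∀ z ∈ Metric.ball x e, ∃ l : Fin n, f =ᶠ[𝓝 z] ht a B l) :
    ∃ α β, ∀ z ∈ Metric.ball x e, f z = α * z + β := by
  classical
  by_cases he : 0 < e
  swap
  · refine ⟨0, 0, fun z hz => ?_⟩
    rw [Metric.ball_eq_empty.2 (not_lt.1 he)] at hz
    exact absurd hz (Set.notMem_empty z)
  have hne : Nonempty (Fin n) := by
    obtain ⟨l, -⟩ := h x (Metric.mem_ball_self he)
    exact ⟨l⟩
  choose! l hl using h
  let φ : Metric.ball x e → ℝ × ℝ := fun z => (a (l z), B (l z))
  have hloc : IsLocallyConstant φ := by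
    rw [IsLocallyConstant.iff_eventually_eq]
    intro z
    have h1 : ∀ᶠ w in 𝓝 (z : ℝ), f =ᶠ[𝓝 w] ht a B (l z) := (hl z z.2).eventually_nhds
    have h2 : ∀ᶠ w : Metric.ball x e in 𝓝 z, f =ᶠ[𝓝 (w : ℝ)] ht a B (l z) :=
      (continuous_subtype_val.tendsto z).eventually h1
    filter_upwards [h2] with w hw
    have h3 : ht a B (l w) =ᶠ[𝓝 (w : ℝ)] ht a B (l z) := (hl w w.2).symm.trans hw
    obtain ⟨d, hd, hd2⟩ := Metric.eventually_nhds_iff_ball.1 h3
    have h4 := hd2 w (Metric.mem_ball_self hd)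
    have h5 := hd2 ((w : ℝ) + d / 2) (by
      rw [Metric.mem_ball, Real.dist_eq]
      rw [show (w : ℝ) + d / 2 - w = d / 2 by ring, abs_of_pos (by linarith)]
      linarith)
    unfold ht at h4 h5
    have h6 : a (l w) = a (l z) := by
      have h7 : (a (l w) - a (l z)) * (d / 2) = 0 := by linarith
      rcases mul_eq_zero.1 h7 with h8 | h8
      · linarith
      · linarith
    refine Prod.ext h6 ?_
    rw [h6] at h4
    show B (l w) = B (l z)
    linarith
  have : PreconnectedSpace (Metric.ball x e) := by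
    rw [← isPreconnected_iff_preconnectedSpace]
    exact (convex_ball x e).isPreconnected
  have hx : x ∈ Metric.ball x e := Metric.mem_ball_self he
  refine ⟨(φ ⟨x, hx⟩).1, (φ ⟨x, hx⟩).2, fun z hz => ?_⟩
  have h1 := hloc.apply_eq_of_preconnectedSpace ⟨x, hx⟩ ⟨z, hz⟩
  rw [h1]
  exact (hl z hz).self_of_nhds

theorem break_near {n : ℕ} {k : ℕ} (hk : k < n) (P : Fin n → ℝ × ℝ) {x : ℝ}
    (hx : ¬ ∃ l, level (sl P) (ic P) k =ᶠ[𝓝 x] ht (sl P) (ic P) l) {U : Set ℝ} (hU : U ∈ 𝓝 x) :
    ∀ᶠ P' in 𝓝 P, ∃ z ∈ U, ¬ ∃ l, level (sl P') (ic P') k =ᶠ[𝓝 z] ht (sl P') (ic P') l := by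
  obtain ⟨e, he, heU⟩ := Metric.mem_nhds_iff.1 hU
  set f : (Fin n → ℝ × ℝ) → ℝ → ℝ := fun P => level (sl P) (ic P) k with hf
  -- three points
  have h1 : x ∈ Metric.ball x e := Metric.mem_ball_self he
  have h2 : x + e / 2 ∈ Metric.ball x e := by
    rw [Metric.mem_ball, Real.dist_eq, show x + e / 2 - x = e / 2 by ring, abs_of_pos (by linarith)]
    linarith
  obtain ⟨z, hz, hne⟩ : ∃ z ∈ Metric.ball x e,
      (f P z - f P x) * (e / 2) ≠ (f P (x + e / 2) - f P x) * (z - x) := by
    by_contra hcon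
    push Not at hcon
    apply hx
    refine affine_line hk (Metric.ball_mem_nhds x he)
      (α := (f P (x + e / 2) - f P x) / (e / 2))
      (β := f P x - (f P (x + e / 2) - f P x) / (e / 2) * x) ?_
    intro z hz
    have h3 := hcon z hz
    have he2 : e / 2 ≠ 0 := by linarith
    have h4 : f P z - f P x = (f P (x + e / 2) - f P x) * (z - x) / (e / 2) := by
      rw [eq_div_iff he2]
      exact h3
    show f P z = _
    have h5 : f P z = f P x + (f P (x + e / 2) - f P x) * (z - x) / (e / 2) := by linarith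
    rw [h5]
    ring
  have hcont : ∀ y, Continuous fun P => f P y := fun y => level_cont hk y
  have h3 : ∀ᶠ P' in 𝓝 P,
      (f P' z - f P' x) * (e / 2) ≠ (f P' (x + e / 2) - f P' x) * (z - x) := by
    have hc : Continuous fun P' =>
        (f P' z - f P' x) * (e / 2) - (f P' (x + e / 2) - f P' x) * (z - x) :=
      (((hcont z).sub (hcont x)).mul continuous_const).sub
        (((hcont _).sub (hcont x)).mul continuous_const)
    have h4 : (f P z - f P x) * (e / 2) - (f P (x + e / 2) - f P x) * (z - x) ≠ 0 :=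
      sub_ne_zero.2 hne
    filter_upwards [hc.continuousAt.eventually_ne h4] with P' hP'
    exact sub_ne_zero.1 hP'
  filter_upwards [h3] with P' hP'
  by_contra hcon
  push Not at hcon
  obtain ⟨α, β, hαβ⟩ := locally_affine (a := sl P') (B := ic P') (f := f P') (x := x) (e := e)
    (fun w hw => hcon w (heU hw))
  apply hP'
  rw [hαβ z hz, hαβ x h1, hαβ _ h2]
  ring

theorem lsc : S_LSC := by
  intro n k hk P y hy
  classical
  set S : Set ℝ := {x : ℝ | ¬ ∃ l, level (sl P) (ic P) k =ᶠ[𝓝 x] ht (sl P) (ic P) l} with hS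
  have hy' : y < S.encard := hy
  have hyt : y ≠ ⊤ := hy'.ne_top
  have h1 : y + 1 ≤ S.encard := Order.add_one_le_of_lt hy'
  obtain ⟨T, hT, hTc⟩ := Set.exists_subset_encard_eq h1
  have hTfin : T.Finite := by
    rw [← Set.encard_lt_top_iff, hTc]
    exact WithTop.add_lt_top.2 ⟨lt_top_iff_ne_top.2 hyt, ENat.one_lt_top⟩
  obtain ⟨U, hU, hdis⟩ := hTfin.t2_separation
  have h2 : ∀ᶠ P' in 𝓝 P, ∀ x ∈ T, ∃ z ∈ U x,
      ¬ ∃ l, level (sl P') (ic P') k =ᶠ[𝓝 z] ht (sl P') (ic P') l := by
    rw [eventually_all_finite hTfin]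
    intro x hx
    exact break_near hk P (hT hx) ((hU x).2.mem_nhds (hU x).1)
  filter_upwards [h2] with P' hP'
  choose! z hz1 hz2 using hP'
  have h3 : T.encard ≤ (psi (sl P') (ic P') k) := by
    show T.encard ≤ Set.encard _
    refine Set.encard_le_encard_of_injOn (f := z) (fun x hx => hz2 x hx) ?_
    intro x hx x' hx' hxx
    by_contra hne
    have h4 := hdis hx hx' hne
    exact (Set.disjoint_left.1 h4) (hz1 x hx) (by rw [hxx]; exact hz1 x' hx')
  refine lt_of_lt_of_le ?_ h3
  rw [hTc]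
  exact ENat.lt_add_one_iff hyt |>.2 le_rfl

end Pool.Agent.Helper86K9.SR
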