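import Pool.Agent.Helper31K9.SR.St3
import Pool.Agent.Helper86K9.SR.Lsc

set_option autoImplicit false

namespace Pool.Agent.Helper86K9.SR

open Finset MeasureTheory Filter Topology
open Pool.Agent.H189R2.Lev (ht cr)
open Pool.Agent.Results.MP_a08d0a_co.IidLevel (Simple level psi sl ic level_eq exists_level)
open Pool.Agent.Helper31K9.SR

theorem lsi : S_LSI := by
  intro n k hk c d P y hy
  classical
  set S : Set ℝ := {x : ℝ | x ∈ Set.Ioo c d ∧
    ¬ ∃ l, level (sl P) (ic P) k =ᶠ[𝓝 x] ht (sl P) (ic P) l} with hS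
  have hy' : y < S.encard := hy
  have hyt : y ≠ ⊤ := hy'.ne_top
  have h1 : y + 1 ≤ S.encard := Order.add_one_le_of_lt hy'
  obtain ⟨T, hT, hTc⟩ := Set.exists_subset_encard_eq h1
  have hTfin : T.Finite := by
    rw [← Set.encard_lt_top_iff, hTc]
    exact WithTop.add_lt_top.2 ⟨lt_top_iff_ne_top.2 hyt, ENat.one_lt_top⟩
  obtain ⟨U, hU, hdis⟩ := hTfin.t2_separation
  have h2 : ∀ᶠ P' in 𝓝 P, ∀ x ∈ T, ∃ z ∈ U x ∩ Set.Ioo c d,
      ¬ ∃ l, level (sl P') (ic P') k =ᶠ[𝓝 z] ht (sl P') (ic P') l := by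
    rw [eventually_all_finite hTfin]
    intro x hx
    exact break_near hk P (hT hx).2 (Filter.inter_mem ((hU x).2.mem_nhds (hU x).1)
      (isOpen_Ioo.mem_nhds (hT hx).1))
  filter_upwards [h2] with P' hP'
  choose! z hz1 hz2 using hP'
  have h3 : T.encard ≤ (psiOn (sl P') (ic P') k (Set.Ioo c d)) := by
    show T.encard ≤ Set.encard _
    refine Set.encard_le_encard_of_injOn (f := z) (fun x hx => ⟨(hz1 x hx).2, hz2 x hx⟩) ?_
    intro x hx x' hx' hxx
    by_contra hne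
    have h4 := hdis hx hx' hne
    exact (Set.disjoint_left.1 h4) (hz1 x hx).1 (by rw [hxx]; exact (hz1 x' hx').1)
  refine lt_of_lt_of_le ?_ h3
  rw [hTc]
  exact ENat.lt_add_one_iff hyt |>.2 le_rfl

end Pool.Agent.Helper86K9.SR
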